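import Pool.Agent.X288.L2.Means

/-! Quadratic extensions of number fields: the number of fixed embeddings and the character of the
quadratic twist. -/

set_option autoImplicit false
open Classical

namespace Pool.Agent.U297.VC

open NumberField IsDedekindDomain
open Pool.Agent.W401.Cheb Pool.Agent.W353.L1 Pool.Agent.W353.NF
open Pool.Agent.TH322.BC

section quad
variable {k F K : Type} [Field k] [NumberField k] [Field F] [NumberField F] [Field K]
  [NumberField K] [Algebra k F] [Algebra k K] [Algebra F K] [IsScalarTower k F K]

/-- restriction of embeddings -/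
noncomputable def res (j : K →ₐ[k] AlgebraicClosure k) : F →ₐ[k] AlgebraicClosure k :=
  j.comp (IsScalarTower.toAlgHom k F K)

theorem res_apply (j : K →ₐ[k] AlgebraicClosure k) (x : F) :
    res (F := F) j x = j (algebraMap F K x) := rfl

/-- the number of the extensions of an embedding -/
theorem card_fibre (i : F →ₐ[k] AlgebraicClosure k) :
    Nat.card {j : K →ₐ[k] AlgebraicClosure k // res (F := F) j = i} = Module.finrank F K := by
  let _ : Algebra F (AlgebraicClosure k) := i.toRingHom.toAlgebra
  have hst : IsScalarTower k F (AlgebraicClosure k) :=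
    IsScalarTower.of_algebraMap_eq fun x => (i.commutes x).symm
  have hfd : FiniteDimensional F K := Module.Finite.of_restrictScalars_finite ℚ F K
  have e : {j : K →ₐ[k] AlgebraicClosure k // res (F := F) j = i} ≃
      (K →ₐ[F] AlgebraicClosure k) :=
    { toFun := fun j =>
        { j.1 with
          commutes' := fun x => by
            change j.1 (algebraMap F K x) = i x
            rw [← res_apply, j.2] }
      invFun := fun h => ⟨h.restrictScalars k, AlgHom.ext fun x => h.commutes x⟩
      left_inv := fun j => rfl
      right_inv := fun h => rfl }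
  rw [Nat.card_congr e, Nat.card_eq_fintype_card, AlgHom.card F K (AlgebraicClosure k)]

theorem quad_gen {s : K} (hns : ∀ x : F, algebraMap F K x ≠ s) (h2 : Module.finrank F K = 2)
    (y : K) : ∃ a b : F, y = algebraMap F K a + algebraMap F K b * s := by
  have hfd : FiniteDimensional F K := Module.Finite.of_restrictScalars_finite ℚ F K
  have hli : LinearIndependent F ![(1 : K), s] := by
    rw [LinearIndependent.pair_iff]
    intro a b hab
    by_cases hb : b = 0
    · subst hb
      rw [zero_smul, add_zero, Algebra.smul_def, mul_one] at hab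
      exact ⟨(map_eq_zero (algebraMap F K)).1 hab, rfl⟩
    · exfalso
      refine hns (-a / b) ?_
      have hb' : algebraMap F K b ≠ 0 := fun h => hb ((map_eq_zero (algebraMap F K)).1 h)
      rw [map_div₀, map_neg, div_eq_iff hb']
      rw [Algebra.smul_def, Algebra.smul_def, mul_one] at hab
      linear_combination -hab
  have hsp := hli.span_eq_top_of_card_eq_finrank (by rw [h2]; rfl)
  have hy : y ∈ Submodule.span F (Set.range ![(1 : K), s]) := hsp ▸ Submodule.mem_top
  obtain ⟨c, hc⟩ := (Submodule.mem_span_range_iff_exists_fun F).1 hy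
  refine ⟨c 0, c 1, ?_⟩
  rw [← hc, Fin.sum_univ_two]
  simp [Algebra.smul_def]

/-- the fixed extensions of a fixed embedding -/
theorem fixed_iff {D : F} {s : K} (hs : s ^ 2 = algebraMap F K D) (hD : D ≠ 0)
    (hns : ∀ x : F, algebraMap F K x ≠ s) (h2 : Module.finrank F K = 2) {g : GK k}
    {i : F →ₐ[k] AlgebraicClosure k} (hi : act k F g i = i) {j : K →ₐ[k] AlgebraicClosure k}
    (hj : res (F := F) j = i) : act k K g j = j ↔ sg D g i = 1 := by
  have hjs : (j s) ^ 2 = i D := by
    rw [← map_pow, hs, ← hj, res_apply]
  have hsp := sg_spec hi hjs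
  have hj0 : j s ≠ 0 := by
    intro h0
    rw [h0, zero_pow two_ne_zero] at hjs
    exact hD ((map_eq_zero i).1 hjs.symm)
  constructor
  · intro h
    have h3 : g (j s) = j s := congrArg (fun f : K →ₐ[k] AlgebraicClosure k => f s) h
    rcases Int.units_eq_one_or (sg D g i) with h4 | h4
    · exact h4
    · exfalso
      rw [h4, h3] at hsp
      have h5 : j s + j s = 0 := by
        have h6 : j s = -(j s) := by
          simpa using hsp
        nth_rewrite 2 [h6]
        ring
      have h7 : (2 : AlgebraicClosure k) * j s = 0 := by
        rw [two_mul]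
        exact h5
      rcases mul_eq_zero.1 h7 with h8 | h8
      · exact two_ne_zero h8
      · exact hj0 h8
  · intro h
    rw [h] at hsp
    have h3 : g (j s) = j s := by simpa using hsp
    have h4 : ∀ x : F, g (j (algebraMap F K x)) = j (algebraMap F K x) := by
      intro x
      rw [← res_apply, hj]
      exact congrArg (fun f : F →ₐ[k] AlgebraicClosure k => f x) hi
    refine AlgHom.ext fun y => ?_
    obtain ⟨a, b, rfl⟩ := quad_gen hns h2 y
    change g (j (algebraMap F K a + algebraMap F K b * s)) = _
    rw [map_add, map_mul, map_add, map_mul, h3, h4, h4]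

/-- **The permutation character of a quadratic extension.** -/
theorem fix_quad {D : F} {s : K} (hs : s ^ 2 = algebraMap F K D) (hD : D ≠ 0)
    (hns : ∀ x : F, algebraMap F K x ≠ s) (h2 : Module.finrank F K = 2) (g : GK k) :
    (fixn k K g : ℤ) = fixn k F g + chi k D g := by
  have e1 : fixn k K g = (Finset.univ.filter fun j : K →ₐ[k] AlgebraicClosure k =>
      act k K g j = j).card := by
    unfold fixn
    rw [Nat.card_eq_fintype_card, Fintype.card_subtype]
  have e2 : fixn k F g = (Finset.univ.filter fun i : F →ₐ[k] AlgebraicClosure k =>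
      act k F g i = i).card := by
    unfold fixn
    rw [Nat.card_eq_fintype_card, Fintype.card_subtype]
  have hmaps : ∀ j ∈ (Finset.univ.filter fun j : K →ₐ[k] AlgebraicClosure k =>
      act k K g j = j), res (F := F) j ∈ (Finset.univ.filter fun i : F →ₐ[k] AlgebraicClosure k =>
      act k F g i = i) := by
    intro j hj
    rw [Finset.mem_filter] at hj ⊢
    refine ⟨Finset.mem_univ _, AlgHom.ext fun x => ?_⟩
    exact congrArg (fun f : K →ₐ[k] AlgebraicClosure k => f (algebraMap F K x)) hj.2
  have e3 : chi k D g = ∑ i ∈ (Finset.univ.filter fun i : F →ₐ[k] AlgebraicClosure k =>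
      act k F g i = i), ((sg D g i : ℤˣ) : ℤ) := by
    unfold chi
    congr
  rw [e1, e2, e3, Finset.card_eq_sum_card_fiberwise hmaps, Finset.card_eq_sum_ones]
  push_cast
  rw [← Finset.sum_add_distrib]
  refine Finset.sum_congr rfl fun i hi => ?_
  have hi' : act k F g i = i := (Finset.mem_filter.1 hi).2
  rcases Int.units_eq_one_or (sg D g i) with h | h
  · have h3 : ((Finset.univ.filter fun j : K →ₐ[k] AlgebraicClosure k => act k K g j = j).filter
        fun j => res (F := F) j = i) = Finset.univ.filter fun j : K →ₐ[k] AlgebraicClosure k =>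
        res (F := F) j = i := by
      ext j
      simp only [Finset.mem_filter, Finset.mem_univ, true_and]
      exact ⟨fun h' => h'.2, fun h' => ⟨(fixed_iff hs hD hns h2 hi' h').2 h, h'⟩⟩
    have h4 := card_fibre (K := K) i
    rw [h2, Nat.card_eq_fintype_card, Fintype.card_subtype] at h4
    rw [h3, h4, h]
    rfl
  · have h3 : ((Finset.univ.filter fun j : K →ₐ[k] AlgebraicClosure k => act k K g j = j).filter
        fun j => res (F := F) j = i) = ∅ := by
      refine Finset.eq_empty_of_forall_notMem fun j hj => ?_
      simp only [Finset.mem_filter, Finset.mem_univ, true_and] at hj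
      have h5 := (fixed_iff hs hD hns h2 hi' hj.2).1 hj.1
      rw [h] at h5
      exact absurd h5 (by decide)
    rw [h3, h]
    rfl

end quad

end Pool.Agent.U297.VC
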