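import Pool.Agent.X288.L2.Base
import Pool.Agent.U297.VC.Quad

/-! Combinations of characters: quadratic forms in the orders. -/

set_option autoImplicit false
open Classical

namespace Pool.Agent.U297.VC

open Complex Filter Topology ComplexConjugate NumberField IsDedekindDomain Asymptotics
  Pool.Agent.W401.Cheb Pool.Agent.W540.BE Pool.Agent.W353.L1 Pool.Agent.W353.NF
open Pool.Agent.W353.TP (HX sysH LL LL_tendsto)
open Pool.Agent.W353.AB (Sy syE)
open Pool.Agent.W353.EF (perm)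
open Pool.Agent.H341R2 (lam lam_tendsto sysK)
open Pool.Agent.TH322.BC
open Pool.Agent.TH322.BC.Edge (TwistOver MinimalModels LSeries size HasOrder LimsupLE character
  character_eq orders lim_abs_le size_twist size_base coe_ne)
open Pool.Agent.Y722.EP (IsModular)
open Pool.Agent.X288.L2

section orb
variable (k F G : Type) [Field k] [NumberField k] [Field F] [NumberField F] [Field G]
  [NumberField G] [Algebra k F] [Algebra k G]

/-- Two pairs of `k`-embeddings of `F` and of `G` are equivalent if an element of the Galois group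
maps one to the other. -/
def pairRel2 : Setoid ((F →ₐ[k] AlgebraicClosure k) × (G →ₐ[k] AlgebraicClosure k)) where
  r z w := ∃ σ : Gal(AlgebraicClosure k/k), perm k F σ z.1 = w.1 ∧ perm k G σ z.2 = w.2
  iseqv :=
    { refl := fun z => ⟨1, by rw [map_one, map_one]; exact ⟨rfl, rfl⟩⟩
      symm := fun {z w} ⟨σ, h1, h2⟩ => ⟨σ⁻¹, by
        rw [map_inv, map_inv, ← h1, ← h2]
        exact ⟨(perm k F σ).symm_apply_apply _, (perm k G σ).symm_apply_apply _⟩⟩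
      trans := fun {x y z} ⟨σ, h1, h2⟩ ⟨ρ, h3, h4⟩ => ⟨ρ * σ, by
        rw [map_mul, map_mul, Equiv.Perm.mul_apply, Equiv.Perm.mul_apply, h1, h2, h3, h4]
        exact ⟨rfl, rfl⟩⟩ }

/-- The number of the orbits of the Galois group on the pairs of `k`-embeddings of `F` and of `G`:
the number of the fields in the product of fields `F ⊗ G`. -/
noncomputable def orbits : ℕ := Nat.card (Quotient (pairRel2 k F G))

end orb

/-- the action on a product -/
def prodAct (Y Z : Type*) : Equiv.Perm Y × Equiv.Perm Z →* Equiv.Perm (Y × Z) where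
  toFun π := Equiv.prodCongr π.1 π.2
  map_one' := rfl
  map_mul' _ _ := rfl

theorem prod_card {Y Z : Type*} [Finite Y] [Finite Z] (π : Equiv.Perm Y × Equiv.Perm Z) :
    Nat.card {y // π.1 y = y} * Nat.card {z // π.2 z = z} =
      Nat.card {w // prodAct Y Z π w = w} := by
  rw [← Nat.card_prod]
  refine (Nat.card_congr
    { toFun := fun w => (⟨w.1.1, congrArg Prod.fst w.2⟩, ⟨w.1.2, congrArg Prod.snd w.2⟩)
      invFun := fun p => ⟨(p.1.1, p.2.1), Prod.ext p.1.2 p.2.2⟩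
      left_inv := fun _ => rfl
      right_inv := fun _ => rfl }).symm

section mean
variable {k F G : Type} [Field k] [NumberField k] [Field F] [NumberField F] [Field G]
  [NumberField G] [Algebra k F] [Algebra k G]

theorem mean_fix_mul {U : Subgroup (GK k)} [Finite (GK k ⧸ U)] (h1 : U ≤ (act k F).ker)
    (h2 : U ≤ (act k G).ker) :
    avR U (fun q => (fixn k F q.out : ℝ) * (fixn k G q.out : ℝ)) = orbits k F G := by
  set Φ : GK k →* Equiv.Perm (F →ₐ[k] AlgebraicClosure k) ×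
    Equiv.Perm (G →ₐ[k] AlgebraicClosure k) := (act k F).prod (act k G) with hΦ
  have hmem : ∀ u ∈ Φ.ker, act k F u = 1 ∧ act k G u = 1 := by
    intro u hu
    rw [MonoidHom.mem_ker, hΦ, MonoidHom.prod_apply, Prod.mk_eq_one] at hu
    exact hu
  have hle : U ≤ Φ.ker := by
    intro u hu
    rw [MonoidHom.mem_ker, hΦ, MonoidHom.prod_apply, Prod.mk_eq_one]
    exact ⟨(MonoidHom.mem_ker).1 (h1 hu), (MonoidHom.mem_ker).1 (h2 hu)⟩
  have hfinΦ : Finite (GK k ⧸ Φ.ker) := by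
    have hr : Finite Φ.range := inferInstance
    exact Finite.of_equiv _ (QuotientGroup.quotientKerEquivRange Φ).toEquiv.symm
  have e1 := avR_mono (K := k) hle (f := fun g => (fixn k F g : ℝ) * (fixn k G g : ℝ))
    (fun g u hu => by
      have h3 : fixn k F (g * u) = fixn k F g := fixn_mul_ker k F g u (hmem u hu).1
      have h4 : fixn k G (g * u) = fixn k G g := fixn_mul_ker k G g u (hmem u hu).2
      rw [h3, h4])
  rw [e1]
  have g0 : (fun q : GK k ⧸ Φ.ker => (fixn k F q.out : ℝ) * (fixn k G q.out : ℝ)) = fun q =>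
      ((Nat.card {w // prodAct (F →ₐ[k] AlgebraicClosure k) (G →ₐ[k] AlgebraicClosure k)
        (Φ q.out) w = w} : ℕ) : ℝ) := by
    funext q
    rw [← prod_card]
    push_cast
    rfl
  rw [g0]
  have g1 := avR_ker Φ fun π => ((Nat.card {w // prodAct (F →ₐ[k] AlgebraicClosure k)
    (G →ₐ[k] AlgebraicClosure k) π w = w} : ℕ) : ℝ)
  rw [g1]
  have g3 := burnside_orbits (G := Φ.range)
    (Y := (F →ₐ[k] AlgebraicClosure k) × (G →ₐ[k] AlgebraicClosure k))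
    ((prodAct _ _).comp Φ.range.subtype) (pairRel2 k F G) (fun z w => by
      constructor
      · rintro ⟨σ, h1, h2⟩
        exact ⟨⟨Φ σ, ⟨σ, rfl⟩⟩, Prod.ext h1 h2⟩
      · rintro ⟨⟨_, ⟨σ, rfl⟩⟩, h⟩
        exact ⟨σ, congrArg Prod.fst h, congrArg Prod.snd h⟩)
  have g4 : ∑ᶠ (h : Φ.range), ((Nat.card {w // prodAct (F →ₐ[k] AlgebraicClosure k)
      (G →ₐ[k] AlgebraicClosure k) h.1 w = w} : ℕ) : ℝ) =
      orbits k F G * Nat.card Φ.range := g3
  rw [g4]
  have : (Nat.card Φ.range : ℝ) ≠ 0 := by exact_mod_cast Nat.card_pos.ne'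
  field_simp

theorem orbits_comm' (k : Type) [Field k] [NumberField k] (F G : Type) [Field F] [NumberField F]
    [Field G] [NumberField G] [Algebra k F] [Algebra k G] : orbits k F G = orbits k G F := by
  refine Nat.card_congr
    { toFun := Quotient.map (sa := pairRel2 k F G) (sb := pairRel2 k G F) Prod.swap
        fun z w ⟨σ, h1, h2⟩ => ⟨σ, h2, h1⟩
      invFun := Quotient.map (sa := pairRel2 k G F) (sb := pairRel2 k F G) Prod.swap
        fun z w ⟨σ, h1, h2⟩ => ⟨σ, h2, h1⟩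
      left_inv := ?_
      right_inv := ?_ }
  · intro q
    induction q using Quotient.inductionOn with
    | h z => rfl
  · intro q
    induction q using Quotient.inductionOn with
    | h z => rfl

theorem orbits_comm (F G : Type) [Field F] [NumberField F]
    [Field G] [NumberField G] [Algebra ℚ F] [Algebra ℚ G] : orbits ℚ F G = orbits ℚ G F :=
  orbits_comm' ℚ F G

end mean

section
variable {k : Type} [Field k] [NumberField k]

theorem mean_sq_fields {ι : Type} [Fintype ι] (K : ι → Type) [∀ i, Field (K i)]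
    [∀ i, NumberField (K i)] [∀ i, Algebra k (K i)] (c : ι → ℝ) {U : Subgroup (GK k)}
    [Finite (GK k ⧸ U)] (hU : ∀ i, U ≤ (act k (K i)).ker) :
    avR U (fun q => (∑ i, c i * (fixn k (K i) q.out : ℝ)) ^ 2) =
      ∑ i, ∑ j, c i * c j * orbits k (K i) (K j) := by
  have e0 : (fun q : GK k ⧸ U => (∑ i, c i * (fixn k (K i) q.out : ℝ)) ^ 2) = fun q =>
      ∑ i, ∑ j, (c i * c j) * ((fixn k (K i) q.out : ℝ) * (fixn k (K j) q.out : ℝ)) := by
    funext q
    rw [sq, Finset.sum_mul_sum]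
    exact Finset.sum_congr rfl fun i _ => Finset.sum_congr rfl fun j _ => by ring
  rw [e0, avR_sum]
  refine Finset.sum_congr rfl fun i _ => ?_
  rw [avR_sum]
  refine Finset.sum_congr rfl fun j _ => ?_
  rw [avR_const_mul, mean_fix_mul (hU i) (hU j)]

variable {𝒮 : Sy k} {U : Subgroup (GK k)} {κ : Type*} {S : Finset κ} {F : κ → Type}
  [∀ i, Field (F i)] [∀ i, NumberField (F i)] [∀ i, Algebra k (F i)]
  {D : ∀ i, 𝓞 (F i)} {X : κ → ℝ → ℝ}

/-- **One height: the inequality and the strict inequality for a combination.** -/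
theorem fam_sq [U.Normal] {t : ℝ} (h : Fam 𝒮 U S F D (fun _ => t) X)
    (hU : IsOpen (U : Set (GK k))) [Finite (GK k ⧸ U)]
    (hsec : Sec (Pool.Agent.W353.NF.TT 𝒮) 1) (h2 : ∀ x, |Pool.Agent.W353.NF.TT 𝒮 x| ≤ 2)
    (c : κ → ℝ) :
    (∀ η : ℝ, 0 < η → ∀ᶠ ε : ℝ in 𝓝[>] 0, (∑ i ∈ S, c i * X i ε) ^ 2 ≤
      kappa₂ t * (avR U fun q => (∑ i ∈ S, c i * (chi k (D i : F i) q.out : ℝ)) ^ 2) + η) ∧
    ((∃ g : GK k, 4 * (kappa₂ t * avR U fun q =>
        (∑ i ∈ S, c i * (chi k (D i : F i) q.out : ℝ)) ^ 2) <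
        (∑ i ∈ S, c i * (chi k (D i : F i) g : ℝ)) ^ 2) →
      ∃ B : ℝ, 0 ≤ B ∧ B ^ 2 < kappa₂ t * (avR U fun q =>
        (∑ i ∈ S, c i * (chi k (D i : F i) q.out : ℝ)) ^ 2) ∧
        ∀ η : ℝ, 0 < η → ∀ᶠ ε : ℝ in 𝓝[>] 0, |∑ i ∈ S, c i * X i ε| ≤ B + η) := by
  choose σ hσ using exists_isFrob (F := k)
  have hcl : Cls U (fun g => ∑ i ∈ S, c i * (chi k (D i : F i) g : ℝ)) :=
    Cls.sum S fun i hi => (h.cls hi).const_mul (c i)
  have h1 := h.szH σ hσ c
  have e1 : ∀ v, ∑ i ∈ S, c i * ((chi k (D i : F i) (σ v) : ℝ) * cz t v) =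
      (∑ i ∈ S, c i * (chi k (D i : F i) (σ v) : ℝ)) * cz t v := by
    intro v
    rw [Finset.sum_mul]
    exact Finset.sum_congr rfl fun i _ => by ring
  have h1' : SzH (Pool.Agent.W353.NF.TT 𝒮)
      (fun v => (∑ i ∈ S, c i * (chi k (D i : F i) (σ v) : ℝ)) * cz t v)
      (fun ε => ∑ i ∈ S, c i * X i ε) := h1.congr e1 fun _ => rfl
  exact sqT hcl hσ h1' hU hsec h2

end

theorem conc_le {x : ℝ → ℝ} {M Q : ℝ} (hx : Tendsto x (𝓝[>] 0) (𝓝 (-M)))
    (h : ∀ η : ℝ, 0 < η → ∀ᶠ ε : ℝ in 𝓝[>] 0, x ε ^ 2 ≤ Q + η) : M ^ 2 ≤ Q := by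
  have h7 := hx.pow 2
  rw [neg_sq] at h7
  refine le_of_forall_pos_le_add fun η hη => ?_
  exact le_of_tendsto h7 (h η hη)

theorem conc_lt {x : ℝ → ℝ} {M Q : ℝ} (hx : Tendsto x (𝓝[>] 0) (𝓝 (-M)))
    (h : ∃ B : ℝ, 0 ≤ B ∧ B ^ 2 < Q ∧ LimsupLE x B) : M ^ 2 < Q := by
  obtain ⟨B, hB0, hB, hlim⟩ := h
  have h8 := lim_abs_le hx hlim
  rw [abs_neg] at h8
  rw [← sq_abs]
  exact lt_of_le_of_lt (pow_le_pow_left₀ (abs_nonneg _) h8 2) hB

theorem int_zero {M : ℤ} (h : (M : ℝ) ^ 2 < 1) : M = 0 := by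
  have h1 : M ^ 2 < 1 := by exact_mod_cast h
  nlinarith [sq_nonneg M, Int.lt_iff_add_one_le.1 h1]

section
variable {a b : ℤ} (hab : 4 * a ^ 3 + 27 * b ^ 2 ≠ 0) (hmod : IsModular a b)

include hab hmod in
/-- several twists at one height -/
theorem twists_sq {ι : Type} [Fintype ι] (F : ι → Type) [∀ i, Field (F i)]
    [∀ i, NumberField (F i)] [∀ i, Algebra ℚ (F i)]
    (X : ∀ i, TwistOver (EC ℚ a b) (F i)) (U : Subgroup (GK ℚ)) [U.Normal]
    (hU : IsOpen (U : Set (GK ℚ)))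
    (hker : ∀ i, ∀ u ∈ U, act ℚ (F i) u = 1 ∧
      ∀ j : F i →ₐ[ℚ] AlgebraicClosure ℚ, ∀ s : AlgebraicClosure ℚ, s ^ 2 = j (X i).D → u s = s)
    (τ : ℝ) (c : ι → ℝ) :
    ((∀ η : ℝ, 0 < η → ∀ᶠ ε : ℝ in 𝓝[>] 0, (∑ i, c i * size (X i).V τ ε) ^ 2 ≤
        kappa₂ τ * (avR U fun q =>
          (∑ i, c i * (character (K := ℚ) ((X i).D : F i) q.out : ℝ)) ^ 2) + η) ∧
      ((∃ g : GK ℚ, 4 * (kappa₂ τ * avR U fun q =>
          (∑ i, c i * (character (K := ℚ) ((X i).D : F i) q.out : ℝ)) ^ 2) <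
          (∑ i, c i * (character (K := ℚ) ((X i).D : F i) g : ℝ)) ^ 2) →
        ∃ B : ℝ, 0 ≤ B ∧ B ^ 2 < kappa₂ τ * (avR U fun q =>
          (∑ i, c i * (character (K := ℚ) ((X i).D : F i) q.out : ℝ)) ^ 2) ∧
          LimsupLE (fun ε => ∑ i, c i * size (X i).V τ ε) B)) ∧
    ∀ m : ι → ℤ, (∀ i, HasOrder (X i).V τ (m i)) →
      Tendsto (fun ε => ∑ i, c i * size (X i).V τ ε) (𝓝[>] 0) (𝓝 (-∑ i, c i * (m i : ℝ))) := by
  have hfin : Finite (GK ℚ ⧸ U) := Subgroup.quotient_finite_of_isOpen _ hU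
  have hfam := fam_twists hab F X U hker (fun _ => τ)
  have h := fam_sq hfam hU (sec_one hab hmod) (abs_TT_le a b) c
  refine ⟨?_, fun m hm => ?_⟩
  · simp only [character_eq (coe_ne (X _).D_ne_zero)]
    exact h
  · have h3 : Tendsto (fun ε => ∑ i, c i * size (X i).V τ ε) (𝓝[>] 0)
        (𝓝 (∑ i, c i * (-(m i : ℝ)))) :=
      tendsto_finsetSum _ fun i _ =>
        (orders (size_twist one_ne_zero (P_eq a b) (Q_eq a b) (PQ_ne hab) (X i) τ).1
          (hm i)).const_mul (c i)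
    have e : (∑ i, c i * (-(m i : ℝ))) = -∑ i, c i * (m i : ℝ) := by
      rw [← Finset.sum_neg_distrib]
      exact Finset.sum_congr rfl fun i _ => by ring
    rwa [e] at h3

include hab hmod in
/-- several fields at one height -/
theorem fields_sq {ι : Type} [Fintype ι] (K : ι → Type) [∀ i, Field (K i)]
    [∀ i, NumberField (K i)] [∀ i, Algebra ℚ (K i)]
    (V : ∀ i, HeightOneSpectrum (𝓞 (K i)) → WeierstrassCurve (𝓞 (K i)))
    (hV : ∀ i, MinimalModels ((EC ℚ a b).map (algebraMap ℚ (K i))) (V i))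
    (τ : ℝ) (c : ι → ℝ) (Q : ℝ)
    (hQ : Q = kappa₂ τ * ∑ i, ∑ j, c i * c j * orbits ℚ (K i) (K j)) :
    ((∀ η : ℝ, 0 < η → ∀ᶠ ε : ℝ in 𝓝[>] 0, (∑ i, c i * size (V i) τ ε) ^ 2 ≤ Q + η) ∧
      (4 * Q < (∑ i, c i * (Module.finrank ℚ (K i) : ℝ)) ^ 2 →
        ∃ B : ℝ, 0 ≤ B ∧ B ^ 2 < Q ∧ LimsupLE (fun ε => ∑ i, c i * size (V i) τ ε) B)) ∧
    ∀ m : ι → ℤ, (∀ i, HasOrder (V i) τ (m i)) →
      Tendsto (fun ε => ∑ i, c i * size (V i) τ ε) (𝓝[>] 0) (𝓝 (-∑ i, c i * (m i : ℝ))) := by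
  set U : Subgroup (GK ℚ) := ⨅ i, (act ℚ (K i)).ker with hUd
  have hU : IsOpen (U : Set (GK ℚ)) := by
    rw [hUd, Subgroup.coe_iInf]
    exact isOpen_iInter_of_finite fun i => ker_act_open ℚ (K i)
  have hUle : ∀ i, U ≤ (act ℚ (K i)).ker := fun i => iInf_le _ i
  have hUn : U.Normal := Subgroup.normal_iInf_normal fun i => inferInstance
  have hfin : Finite (GK ℚ ⧸ U) := Subgroup.quotient_finite_of_isOpen _ hU
  have hsz := fun i => size_base one_ne_zero (P_eq a b) (Q_eq a b) (PQ_ne hab) (hV i) τ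
  have hfam : Fam (syE (PP ℚ a) (QQ ℚ b)) U (Finset.univ : Finset ι)
      K (fun i => (1 : 𝓞 (K i))) (fun _ => τ) (fun i => size (V i) τ) :=
    { real := syE_real _ _
      ne := fun _ _ => one_ne_zero
      hSD := fun _ _ => Pool.Agent.TH322.BC.Edge.syE_D _ _ _
      ker := fun i _ u hu => ⟨(MonoidHom.mem_ker).1 (hUle i hu), fun j s hs => one_ker u j s hs⟩
      size := fun i _ => (hsz i).2 }
  have h := fam_sq hfam hU (sec_one hab hmod) (abs_TT_le a b) c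
  simp only [chi_one', Int.cast_natCast] at h
  rw [mean_sq_fields K c hUle, ← hQ] at h
  refine ⟨⟨h.1, fun h4 => h.2 ⟨1, ?_⟩⟩, fun m hm => ?_⟩
  · simp only [fixn_one]
    exact h4
  · have h3 : Tendsto (fun ε => ∑ i, c i * size (V i) τ ε) (𝓝[>] 0)
        (𝓝 (∑ i, c i * (-(m i : ℝ)))) :=
      tendsto_finsetSum _ fun i _ => (orders (hsz i).1 (hm i)).const_mul (c i)
    have e : (∑ i, c i * (-(m i : ℝ))) = -∑ i, c i * (m i : ℝ) := by
      rw [← Finset.sum_neg_distrib]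
      exact Finset.sum_congr rfl fun i _ => by ring
    rwa [e] at h3

include hab hmod in
/-- quadratic extensions -/
theorem quad_ext {F K : Type} [Field F] [NumberField F] [Field K] [NumberField K] [Algebra ℚ F]
    [Algebra ℚ K] [Algebra F K] [IsScalarTower ℚ F K]
    (h2 : Module.finrank F K = 2) {D : F} {s : K} (hs : s ^ 2 = algebraMap F K D)
    (hns : ∀ x : F, algebraMap F K x ≠ s) (hirr : IrrTwist ℚ D)
    {V : HeightOneSpectrum (𝓞 F) → WeierstrassCurve (𝓞 F)}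
    (hV : MinimalModels ((EC ℚ a b).map (algebraMap ℚ F)) V)
    {W : HeightOneSpectrum (𝓞 K) → WeierstrassCurve (𝓞 K)}
    (hW : MinimalModels ((EC ℚ a b).map (algebraMap ℚ K)) W) (τ : ℝ)
    (hτ : τ ≠ 0 ∨ 3 ≤ Module.finrank ℚ F) :
    (∃ B : ℝ, B < 1 ∧ LimsupLE (fun ε => size W τ ε - size V τ ε) B) ∧
    ∀ m n : ℤ, HasOrder V τ m → HasOrder W τ n → n = m := by
  have hD : D ≠ 0 := by
    rintro rfl
    rw [map_zero] at hs
    refine hns 0 ?_
    rw [map_zero]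
    exact (pow_eq_zero_iff two_ne_zero).1 hs |>.symm
  set U : Subgroup (GK ℚ) := kerD ℚ D with hUd
  have hU : IsOpen (U : Set (GK ℚ)) := kerD_open D
  have hfin : Finite (GK ℚ ⧸ U) := Subgroup.quotient_finite_of_isOpen _ hU
  have s0 := size_base one_ne_zero (P_eq a b) (Q_eq a b) (PQ_ne hab) hV τ
  have s1 := size_base one_ne_zero (P_eq a b) (Q_eq a b) (PQ_ne hab) hW τ
  choose σ hσ using exists_isFrob (F := ℚ)
  have z1 : SzH (Pool.Agent.W353.NF.TT (syE (PP ℚ a) (QQ ℚ b)))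
      (fun v => (chi ℚ (((1 : 𝓞 K) : K)) (σ v) : ℝ) * cz τ v) (size W τ) :=
    size_chi _ (syE_real _ _) one_ne_zero (Pool.Agent.TH322.BC.Edge.syE_D _ _ _) σ hσ s1.2
  have z0 : SzH (Pool.Agent.W353.NF.TT (syE (PP ℚ a) (QQ ℚ b)))
      (fun v => (chi ℚ (((1 : 𝓞 F) : F)) (σ v) : ℝ) * cz τ v) (size V τ) :=
    size_chi _ (syE_real _ _) one_ne_zero (Pool.Agent.TH322.BC.Edge.syE_D _ _ _) σ hσ s0.2
  obtain ⟨M₁, hM₁, hM₁'⟩ : ∃ M : ℝ, 0 ≤ M ∧ ∀ g : GK ℚ, |(chi ℚ (((1 : 𝓞 K) : K)) g : ℝ)| ≤ M :=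
    ⟨_, Nat.cast_nonneg _, fun g => abs_chi_le _ _⟩
  obtain ⟨M₀, hM₀, hM₀'⟩ : ∃ M : ℝ, 0 ≤ M ∧ ∀ g : GK ℚ, |(chi ℚ (((1 : 𝓞 F) : F)) g : ℝ)| ≤ M :=
    ⟨_, Nat.cast_nonneg _, fun g => abs_chi_le _ _⟩
  have hb1 : ∀ v, |(chi ℚ (((1 : 𝓞 K) : K)) (σ v) : ℝ) * cz τ v| ≤ M₁ := by
    intro v
    rw [abs_mul]
    calc _ ≤ M₁ * 1 := mul_le_mul (hM₁' _) (abs_cz _ _) (abs_nonneg _) hM₁
      _ = _ := mul_one _
  have hb0 : ∀ v, |(-1 : ℝ) * ((chi ℚ (((1 : 𝓞 F) : F)) (σ v) : ℝ) * cz τ v)| ≤ M₀ := by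
    intro v
    rw [abs_mul, abs_mul, abs_neg, abs_one, one_mul]
    calc _ ≤ M₀ * 1 := mul_le_mul (hM₀' _) (abs_cz _ _) (abs_nonneg _) hM₀
      _ = _ := mul_one _
  have z := (z1.add (z0.const_mul (-1)) (abs_TT_le a b) hb1 hb0).congr
    (Ψ' := fun v => (chi ℚ D (σ v) : ℝ) * cz τ v)
    (X' := fun ε => size W τ ε - size V τ ε) (fun v => by
      have h3 := fix_quad (k := ℚ) hs hD hns h2 (σ v)
      have h4 : (chi ℚ D (σ v) : ℝ) = (fixn ℚ K (σ v) : ℝ) - fixn ℚ F (σ v) := by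
        have h5 : chi ℚ D (σ v) = (fixn ℚ K (σ v) : ℤ) - fixn ℚ F (σ v) := by omega
        rw [h5]
        push_cast
        rfl
      rw [chi_one', chi_one', h4]
      push_cast
      ring) (fun ε => by ring)
  have hcl : Cls U (fun g => (chi ℚ D g : ℝ)) :=
    ⟨fun g u hu => by rw [chi_mul_ker hD g u hu.1 hu.2], fun g ρ => by rw [chi_conj hD],
      fun g => by rw [chi_inv hD]⟩
  obtain ⟨k1, k2⟩ := sqT hcl hσ z hU (sec_one hab hmod) (abs_TT_le a b)
  rw [mean_chi_sq hD hirr, mul_one] at k1 k2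
  have hk : kappa₂ τ ≤ 1 := by
    unfold kappa₂
    split_ifs <;> norm_num
  have hkey : ∃ B : ℝ, 0 ≤ B ∧ B < 1 ∧ LimsupLE (fun ε => size W τ ε - size V τ ε) B := by
    rcases hτ with h0 | h3
    · have hk2 : kappa₂ τ = 1 / 2 := by
        unfold kappa₂
        rw [if_neg h0]
      refine ⟨9 / 10, by norm_num, by norm_num, fun η hη => ?_⟩
      filter_upwards [k1 (31 / 100) (by norm_num)] with ε hε
      rw [hk2] at hε
      have h4 : |size W τ ε - size V τ ε| ≤ 9 / 10 := by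
        refine abs_le_of_sq_le_sq ?_ (by norm_num)
        linarith
      linarith
    · obtain ⟨B, hB0, hB, hlim⟩ := k2 ⟨1, by
        rw [chi_at_one]
        have h4 : (3 : ℝ) ≤ Module.finrank ℚ F := by exact_mod_cast h3
        push_cast
        nlinarith⟩
      refine ⟨B, hB0, ?_, hlim⟩
      nlinarith
  obtain ⟨B, hB0, hB, hlim⟩ := hkey
  refine ⟨⟨B, hB, hlim⟩, fun m n hm hn => ?_⟩
  have h6 := (orders s1.1 hn).sub (orders s0.1 hm)
  have e : -(n : ℝ) - -(m : ℝ) = -(((n - m : ℤ)) : ℝ) := by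
    push_cast
    ring
  rw [e] at h6
  have h7 := conc_lt h6 (Q := 1) ⟨B, hB0, by nlinarith, hlim⟩
  have h8 := int_zero h7
  omega

end

end Pool.Agent.U297.VC
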